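import Pool.Agent.Y766.F4

/-!
Lindelöf on average over additively structured families of Dirichlet characters
of size at least the two-thirds power of the modulus.
-/

set_option autoImplicit false

namespace Pool.Agent.Results.MP_52e316_nt.CosetProgressionMeanSquare

/-- `F` is a proper coset progression of rank `k` in the group of Dirichlet characters mod `d`:
the products `η χ₁^j₁ ⋯ χ_k^j_k` with `η` in a subgroup `H` and `0 ≤ jᵢ < Jᵢ`, all distinct. -/
def IsCosetProgression {d : ℕ} (k : ℕ) (F : Finset (DirichletCharacter ℂ d)) : Prop :=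
  ∃ (H : Subgroup (DirichletCharacter ℂ d)) (χ : Fin k → DirichletCharacter ℂ d) (J : Fin k → ℕ),
    (∀ θ : DirichletCharacter ℂ d, θ ∈ F ↔
      ∃ η ∈ H, ∃ j : Fin k → ℕ, (∀ i, j i < J i) ∧ θ = η * ∏ i, χ i ^ j i) ∧
    F.card = Nat.card H * ∏ i, J i

open Classical in
theorem result (k : ℕ) (ε : ℝ) (hε : 0 < ε) : ∃ (C : ℝ) (A : ℕ), 0 < C ∧
    ∀ (q d : ℕ) [NeZero q] [NeZero d], 1 < q → ∀ (hd : d ∣ q)
    (F : Finset (DirichletCharacter ℂ d)), IsCosetProgression k F →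
    (d : ℝ) ^ (2 / 3 : ℝ) ≤ F.card → (q : ℝ) ^ (1 / 2 : ℝ) ≤ F.card →
    ∀ (ψ : DirichletCharacter ℂ q) (t : ℝ),
    ∑ θ ∈ F.filter (fun θ => (ψ * DirichletCharacter.changeLevel hd θ).IsPrimitive),
      ‖(ψ * DirichletCharacter.changeLevel hd θ).LFunction (1 / 2 + (t : ℂ) * Complex.I)‖ ^ 2 ≤
      C * (1 + |t|) ^ A * (q : ℝ) ^ ε * F.card :=
  Pool.Agent.Y766.coset_final k hε

end Pool.Agent.Results.MP_52e316_nt.CosetProgressionMeanSquare
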