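import Pool.Agent.Y19.QT.Lin2
import Pool.Agent.Y19.QT.Fams
import Pool.Agent.Y19.QT.Fin

/-!
# The Lindelöf bound with powers of logarithms for almost all quadratic twists of a `GL(2)` form

Let `π` be the automorphic representation of an elliptic curve `E : y² = x³ + a x + b` over `ℚ`, so that
`L(1/2 + it, π ⊗ χ_d) = L(E_d, 1 + it)`.  We prove, without any hypothesis, for all `E` with
`j`-invariant `0` or `1728` and for all quadratic twists of `X₀(11)` and `X₀(14)`, and for every elliptic
curve over `ℚ` whose quadratic twists are modular, the maximal inequality

`∑_{|d| ≤ X, d squarefree} sup_t |L(E_d, 1 + it)|² (2 + |t|)^(-B) ≤ C X (log X)^A`.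

So for every `K` there is a `K'` with `|L(1/2 + it, π ⊗ χ_d)| ≤ ((log X)(2 + |t|))^K'` for all real `t`,
for all squarefree `|d| ≤ X` except `O(X / (log X)^K)`.

Method: a large sieve inequality for quadratic characters with a loss of a power of `log X` only (in
place of `X^ε`) for the coefficients of the newform, proved by the Poisson summation formula in `d`, the
functional equations of all the twists and the embedding `d ↦ d p²`, `p ≤ P`, of the family into a longer
one, with a contraction in the closing step, on rays near the imaginary axis.
-/

set_option autoImplicit false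

namespace Pool.Agent.Results.MP_52e316_nt.LogLindelofTwists

open Pool.Agent.Y19.QT

theorem result : (∀ a b : ℤ, Fam a b → LindelofLaw a b) ∧
    ∀ a b : ℤ, 4 * a ^ 3 + 27 * b ^ 2 ≠ 0 → TwistsModular a b → LindelofLaw a b :=
  ⟨fun _ _ h => lindelofLaw_of h.disc h.data.1 h.data.2,
    fun a b hab h => lindelofLaw_of hab (hasTwists_of a b hab h) (exists_LFun a b hab h)⟩

end Pool.Agent.Results.MP_52e316_nt.LogLindelofTwists
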