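import Pool.Agent.Y766.R7.ZH
import Pool.Agent.Y46.R3.Wey
import Pool.Agent.Y779.R3.Klo
import Pool.Agent.Y870.R3.Phi
import Pool.Agent.Y155.R7.Sq
import Pool.Agent.Y924.R7.Br
import Pool.Agent.Y924.R7.Inj
import Pool.Agent.Y924.R7.Lin
import Pool.Agent.Y924.R7.Vdc
import Pool.Agent.Y948.R7.Td
import Pool.Agent.Y948.R7.Var
import Pool.Agent.Y317.R7.Cmp
import Pool.Agent.Y287.R7.Cnt

/-!
Mean squares of `L(1/2 + it, χθ)` over all characters `θ` mod `p^m`, `χ` primitive mod `q = p^ν`: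
at most `q^ε (p^m + q^(19/58))` up to powers of `p` and of `1 + |t|`. For `m = 0` this is the bound
`q^(19/116 + ε)` for individual values.
-/

set_option autoImplicit false

namespace Pool.Agent.Results.MP_52e316_nt.SubWeylPrimePowers

open Finset

theorem result : ∀ ε : ℝ, 0 < ε → ∃ (C : ℝ) (A : ℕ), ∀ (p : ℕ) [Fact p.Prime], 7 ≤ p →
    ∀ (ν m : ℕ) (hmν : m < ν) (χ : DirichletCharacter ℂ (p ^ ν)), χ.IsPrimitive → ∀ t : ℝ,
      ∑ θ : DirichletCharacter ℂ (p ^ m),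
        ‖(χ * DirichletCharacter.changeLevel (pow_dvd_pow p hmν.le) θ).LFunction
          (1 / 2 + (t : ℂ) * Complex.I)‖ ^ 2 ≤
        C * (p : ℝ) ^ 51 * (1 + |t|) ^ A * ((p : ℝ) ^ ν) ^ ε *
          ((p : ℝ) ^ m + ((p : ℝ) ^ ν) ^ (19 / 58 : ℝ)) := by
  intro ε hε
  have hsq := Pool.Agent.Y155.R7.sq_main
  obtain ⟨C, A, -, h⟩ := Pool.Agent.Y766.R7.final7
    { sq := hsq
      td := Pool.Agent.Y948.R7.td hsq
      var := Pool.Agent.Y948.R7.var hsq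
      inj := Pool.Agent.Y924.R7.Inj.inj hsq
      lin := Pool.Agent.Y924.R7.Lin.lin
      vdc := Pool.Agent.Y924.R7.Vdc.vdc
      cnt := Pool.Agent.Y287.R7.cnt
      br := Pool.Agent.Y924.R7.Br.br hsq
      cmp := Pool.Agent.Y317.R7.Cmp.cmp
      klo := Pool.Agent.Y779.R3.klo
      phi := Pool.Agent.Y870.R3.phi
      wey := Pool.Agent.Y46.R3.wey } hε
  exact ⟨C, A, fun p _ hp7 ν m hmν χ hχ t => h p hp7 ν m hmν χ hχ t⟩

end Pool.Agent.Results.MP_52e316_nt.SubWeylPrimePowers
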