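import Pool.Agent.Y766.G8

/-!
Lindelöf on average for the Riemann zeta function over sparse generalised arithmetic
progressions of points of the critical line.
-/

set_option autoImplicit false

namespace Pool.Agent.Results.MP_52e316_nt.ZetaProgressionMeanSquare

/-- `F` is a proper generalised arithmetic progression of rank `k` of real numbers: the numbers
`t₀ + j₁ Δ₁ + ⋯ + j_k Δ_k` with `0 ≤ jᵢ < Jᵢ`, all distinct. -/
def IsProperProgression (k : ℕ) (F : Finset ℝ) : Prop :=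
  ∃ (t₀ : ℝ) (Δ : Fin k → ℝ) (J : Fin k → ℕ),
    (∀ t : ℝ, t ∈ F ↔ ∃ j : Fin k → ℕ, (∀ i, j i < J i) ∧ t = t₀ + ∑ i, (j i : ℝ) * Δ i) ∧
    F.card = ∏ i, J i

theorem result (k : ℕ) (ε : ℝ) (hε : 0 < ε) : ∃ C : ℝ, ∀ T : ℝ, 1 ≤ T →
    ∀ (D : ℝ) (F : Finset ℝ), IsProperProgression k F →
    (∀ t ∈ F, T ≤ t ∧ t ≤ 2 * T) →
    (∀ t ∈ F, ∀ u ∈ F, t ≠ u → 1 ≤ |t - u| ∧ |t - u| ≤ D) →
    D ^ (2 / 3 : ℝ) ≤ F.card → T ^ (1 / 2 : ℝ) ≤ F.card →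
    ∑ t ∈ F, ‖riemannZeta (1 / 2 + t * Complex.I)‖ ^ 2 ≤ C * T ^ ε * F.card :=
  Pool.Agent.Y766.gap_set k hε

end Pool.Agent.Results.MP_52e316_nt.ZetaProgressionMeanSquare
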